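import Mathlib

/-!
# Statements of the two lemmas of linear algebra
-/

namespace Pool.Agent.Helper7K9.OL

/-- Existence of a rational solution: `ψ a (φ v)` and `f (φ v)` are rational for all `a`, `v`, and `f (φ v) = 0`
whenever `ψ a (φ v) = 0` for all `a`. Then `f ∘ φ` is one of the functionals `ψ a ∘ φ`. -/
def S_FR : Prop :=
  ∀ (K : Type) [Field K] [CharZero K] (V A H : Type) [AddCommGroup V] [Module ℚ V]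
    [AddCommGroup A] [Module ℚ A] [AddCommGroup H] [Module K H] [Module.Finite K H]
    (φ : V →+ H) (ψ : A →+ (H →ₗ[K] K)) (f : H →ₗ[K] K),
    (∀ a v, ∃ r : ℚ, ψ a (φ v) = (r : K)) → (∀ v, ∃ r : ℚ, f (φ v) = (r : K)) →
    (∀ v, (∀ a, ψ a (φ v) = 0) → f (φ v) = 0) →
    ∃ a, ∀ v, ψ a (φ v) = f (φ v)

/-- The key lemma (Hodge index theorem on the strata of dimension `d` and `d - 1`). -/
def S_LEMK : Prop :=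
  ∀ (D0 D1 D2 U0 U1 U2 U3 : Type) [AddCommGroup D0] [AddCommGroup D1] [AddCommGroup D2]
    [AddCommGroup U0] [AddCommGroup U1] [AddCommGroup U2] [AddCommGroup U3] [Module ℚ U2]
    [Module.Finite ℚ U2]
    (r0 : D0 →+ D1) (r1 : D1 →+ D2) (s0 : U0 →+ U1) (s1 : U1 →+ U2) (s2 : U2 →+ U3)
    (g0 : U1 →+ D0) (g1 : U2 →+ D1) (g2 : U3 →+ D2)
    (l0 : U0 →+ D0) (l1 : U1 →+ D1) (l2 : U2 →+ D2) (t : D1 →+ U1)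
    (B0 : D0 →+ D0 →+ ℚ) (B1 : D1 →+ D1 →+ ℚ) (P : D2 →+ U2 →+ ℚ)
    (E1 : U1 →+ U1 →+ ℚ) (E2 : U2 →+ U2 →+ ℚ) (E3 : U3 →+ U3 →+ ℚ),
    (∀ x, r1 (r0 x) = 0) → (∀ u, s2 (s1 u) = 0) →
    (∀ u, r0 (g0 u) = - g1 (s1 u)) → (∀ c, r1 (g1 c) = - g2 (s2 c)) →
    (∀ u, r0 (l0 u) = l1 (s0 u)) → (∀ u, r1 (l1 u) = l2 (s1 u)) →
    (∀ u x, B0 (g0 u) x = B1 (l1 u) (r0 x)) → (∀ c y, B1 (g1 c) y = P (r1 y) c) →
    (∀ w c, P (g2 w) c = E3 w (s2 c)) → (∀ c c', P (l2 c) c' = E2 c c') →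
    (∀ u u', B1 (l1 u) (l1 u') = E1 u u') →
    (∀ x y, B0 x y = B0 y x) → (∀ x y, B1 x y = B1 y x) →
    (∀ u, 0 ≤ E1 u u) →
    (∀ u, E1 u u = 0 → u = 0) → (∀ u, E2 u u = 0 → u = 0) → (∀ u, E3 u u = 0 → u = 0) →
    (∀ x u, B1 (x - l1 (t x)) (l1 u) = 0) →
    (∀ x, (∀ u, B1 x (l1 u) = 0) → B1 x x ≤ 0 ∧ (B1 x x = 0 → x = 0)) →
    (∀ x, (∀ u, B0 x (l0 u) = 0) → B0 x x = 0 → x = 0) →
    ∀ b : D0, (∀ x, B1 (r0 b) (r0 x) = 0) → ∃ c : U2, s2 c = 0 ∧ r0 b = g1 c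

end Pool.Agent.Helper7K9.OL
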