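import Pool.Agent.Helper7K9.OL.Defs
import Pool.Agent.Helper7K9.OL.St

/-!
# Forms on the cohomology of the strata
-/

open CategoryTheory Finset

universe u v

namespace Pool.Agent.Helper7K9.OL

open Pool.Agent.H914 Pool.Agent.H914.VarClass Pool.Agent.H914.VarClass.Obj
  Pool.Agent.H914.WeilCohomology

section Strata

variable {k : Type u} [Field k] {𝒱 : VarClass k} {ops : CycleOps 𝒱}
  (W : WeilCohomology.{u, v} ops) {d : ℕ} (D : Strata 𝒱 d)

/-- The alternating sum `ρ` of the restriction maps, as a linear map. -/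
noncomputable def res (p : ℕ) : Coh W D p →ₗ[W.K] Coh W D (p + 1) :=
  LinearMap.pi fun s => ∑ i : Fin (p + 2), (-1 : W.K) ^ (i : ℕ) •
    ((W.map (D.inc p i s)).toLinearMap ∘ₗ LinearMap.proj (D.face p i s))

/-- The alternating sum `γ` of the Gysin maps, as a linear map. -/
noncomputable def gys (p : ℕ) : Coh W D (p + 1) →ₗ[W.K] Coh W D p :=
  ∑ s : D.S (p + 1), ∑ i : Fin (p + 2), (-1 : W.K) ^ (i : ℕ) •
    (LinearMap.single W.K (fun t : D.S p => W.H (D.Y p t)) (D.face p i s) ∘ₗ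
      W.push (D.inc p i s) ∘ₗ LinearMap.proj s)

lemma pair_def (p : ℕ) (x y : Coh W D p) :
    pair W D p x y = ∑ s, W.tr (D.Y p s) (x s * y s) := rfl

lemma res_apply (p : ℕ) (x : Coh W D p) (s : D.S (p + 1)) :
    res W D p x s = ∑ i : Fin (p + 2), (-1 : W.K) ^ (i : ℕ) •
      W.map (D.inc p i s) (x (D.face p i s)) := by
  simp [res, LinearMap.sum_apply]

lemma gys_apply (p : ℕ) (x : Coh W D (p + 1)) :
    gys W D p x = ∑ s : D.S (p + 1), ∑ i : Fin (p + 2), (-1 : W.K) ^ (i : ℕ) •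
      (Pi.single (D.face p i s) (W.push (D.inc p i s) (x s)) : Coh W D p) := by
  simp [gys, LinearMap.sum_apply]

lemma resF_eq (p : ℕ) (x : Coh W D p) : resF W D p x = res W D p x := by
  funext s
  rw [res_apply]
  rfl

lemma gysF_eq (p : ℕ) (x : Coh W D (p + 1)) : gysF W D p x = gys W D p x := by
  funext t
  rw [gys_apply, Finset.sum_apply, gysF]
  apply sum_congr rfl
  intro s _
  rw [Finset.sum_apply]
  apply sum_congr rfl
  intro i _
  by_cases h : t = D.face p i s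
  · subst h
    rw [Pi.single_eq_same, Pi.smul_apply, Pi.single_eq_same]
    rfl
  · rw [Pi.single_eq_of_ne h, Pi.smul_apply, Pi.single_eq_of_ne h, smul_zero]

lemma pair_add_left (p : ℕ) (x x' y : Coh W D p) :
    pair W D p (x + x') y = pair W D p x y + pair W D p x' y := by
  simp [pair_def, add_mul, sum_add_distrib]

lemma pair_add_right (p : ℕ) (x y y' : Coh W D p) :
    pair W D p x (y + y') = pair W D p x y + pair W D p x y' := by
  simp [pair_def, mul_add, sum_add_distrib]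

lemma pair_smul_left (p : ℕ) (c : W.K) (x y : Coh W D p) :
    pair W D p (c • x) y = c * pair W D p x y := by
  simp [pair_def, mul_sum]

lemma pair_sum_left {ι : Type*} (p : ℕ) (t : Finset ι) (x : ι → Coh W D p) (y : Coh W D p) :
    pair W D p (∑ i ∈ t, x i) y = ∑ i ∈ t, pair W D p (x i) y := by
  classical
  induction t using Finset.induction_on with
  | empty => simp [pair_def]
  | insert a t ha ih => rw [sum_insert ha, sum_insert ha, pair_add_left, ih]

lemma pair_single (p : ℕ) (t : D.S p) (c : W.H (D.Y p t)) (y : Coh W D p) :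
    pair W D p (Pi.single t c) y = W.tr (D.Y p t) (c * y t) := by
  rw [pair_def, Finset.sum_eq_single t]
  · rw [Pi.single_eq_same]
  · intro s _ hs
    rw [Pi.single_eq_of_ne hs, zero_mul, map_zero]
  · intro h
    exact absurd (mem_univ t) h

/-- The Gysin maps are dual to the restriction maps. -/
lemma adj (p : ℕ) (x : Coh W D (p + 1)) (y : Coh W D p) :
    pair W D p (gys W D p x) y = pair W D (p + 1) x (res W D p y) := by
  rw [gys_apply, pair_sum_left, pair_def]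
  apply sum_congr rfl
  intro s _
  rw [pair_sum_left, res_apply, mul_sum, map_sum]
  apply sum_congr rfl
  intro i _
  rw [pair_smul_left, pair_single, W.tr_push, mul_smul_comm, map_smul, smul_eq_mul]

/-- Multiplication by a family of classes. -/
def mulF (p : ℕ) (l x : Coh W D p) : Coh W D p := fun s => l s * x s

/-- The families of classes of algebraic cycles of codimension `q`. -/
def Alg (p q : ℕ) : AddSubgroup (Coh W D p) where
  carrier := {x | ∀ s, ∃ z, (D.Y p s).IsCyc q z ∧ W.cl _ z = x s}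
  zero_mem' := fun s => ⟨0, SmVar.IsCyc.zero _ _, map_zero _⟩
  add_mem' := by
    intro x y hx hy s
    obtain ⟨z, hz, h1⟩ := hx s
    obtain ⟨w, hw, h2⟩ := hy s
    exact ⟨z + w, SmVar.IsCyc.add hz hw, by rw [map_add, h1, h2]; rfl⟩
  neg_mem' := by
    intro x hx s
    obtain ⟨z, hz, h1⟩ := hx s
    refine ⟨(-1 : ℚ) • z, SmVar.IsCyc.smul _ hz, ?_⟩
    rw [W.cl_smul, h1]
    simp

lemma mem_Alg {p q : ℕ} {x : Coh W D p} :
    x ∈ Alg W D p q ↔ ∀ s, ∃ z, (D.Y p s).IsCyc q z ∧ W.cl _ z = x s := Iff.rfl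

lemma smul_mem_Alg {p q : ℕ} {x : Coh W D p} (hx : x ∈ Alg W D p q) (c : ℚ) :
    (c : W.K) • x ∈ Alg W D p q := by
  intro s
  obtain ⟨z, hz, h⟩ := hx s
  exact ⟨c • z, SmVar.IsCyc.smul _ hz, by rw [W.cl_smul, h]; rfl⟩

lemma smul_pow_mem_Alg {p q : ℕ} {x : Coh W D p} (hx : x ∈ Alg W D p q) (i : ℕ) :
    (-1 : W.K) ^ i • x ∈ Alg W D p q := by
  have h := smul_mem_Alg W D hx ((-1) ^ i)
  simpa using h

lemma clF_mem {p q : ℕ} {z : ∀ s, (D.Y p s).Cycles} (hz : ∀ s, (D.Y p s).IsCyc q (z s)) :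
    clF W D p z ∈ Alg W D p q := fun s => ⟨z s, hz s, rfl⟩

lemma alg_sum {X : 𝒱.Obj} {q : ℕ} {ι : Type*} (t : Finset ι) (f : ι → W.H X)
    (h : ∀ i ∈ t, ∃ z, X.IsCyc q z ∧ W.cl X z = f i) :
    ∃ z, X.IsCyc q z ∧ W.cl X z = ∑ i ∈ t, f i := by
  classical
  induction t using Finset.induction_on with
  | empty => exact ⟨0, SmVar.IsCyc.zero _ _, by simp⟩
  | insert a t ha ih =>
    obtain ⟨z, hz, h1⟩ := ih fun i hi => h i (mem_insert_of_mem hi)
    obtain ⟨w, hw, h2⟩ := h a (mem_insert_self _ _)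
    exact ⟨w + z, SmVar.IsCyc.add hw hz, by rw [map_add, h1, h2, sum_insert ha]⟩

lemma alg_smul {X : 𝒱.Obj} {q : ℕ} {x : W.H X} (h : ∃ z, X.IsCyc q z ∧ W.cl X z = x) (i : ℕ) :
    ∃ z, X.IsCyc q z ∧ W.cl X z = (-1 : W.K) ^ i • x := by
  obtain ⟨z, hz, h⟩ := h
  refine ⟨((-1) ^ i : ℚ) • z, SmVar.IsCyc.smul _ hz, ?_⟩
  rw [W.cl_smul, h]
  simp

lemma res_mem {p q : ℕ} {x : Coh W D p} (hx : x ∈ Alg W D p q) :
    res W D p x ∈ Alg W D (p + 1) q := by
  intro s
  rw [res_apply]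
  apply alg_sum
  intro i _
  apply alg_smul
  obtain ⟨z, hz, h⟩ := hx (D.face p i s)
  exact ⟨ops.pull (D.inc p i s) z, ops.pull_mem _ hz, by rw [W.cl_pull, h]⟩

lemma gys_mem {p q : ℕ} {x : Coh W D (p + 1)} (hx : x ∈ Alg W D (p + 1) q) :
    gys W D p x ∈ Alg W D p (q + 1) := by
  rw [gys_apply]
  apply AddSubgroup.sum_mem
  intro s _
  apply AddSubgroup.sum_mem
  intro i _
  apply smul_pow_mem_Alg
  intro t
  obtain ⟨z, hz, h⟩ := hx s
  by_cases ht : t = D.face p i s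
  · subst ht
    rw [Pi.single_eq_same]
    refine ⟨ops.push (D.inc p i s) z, ops.push_mem _ hz ?_, by rw [W.cl_push, h]⟩
    have h1 := D.dim_add (p + 1) s
    have h2 := D.dim_add p (D.face p i s)
    omega
  · rw [Pi.single_eq_of_ne ht]
    exact ⟨0, SmVar.IsCyc.zero _ _, map_zero _⟩

lemma pow_mul_alg {X : 𝒱.Obj} {L z : X.Cycles} {q : ℕ} (hL : X.IsCyc 1 L) (hz : X.IsCyc q z) (e : ℕ) :
    ∃ w, X.IsCyc (e + q) w ∧ W.cl X w = W.cl X L ^ e * W.cl X z := by
  induction e with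
  | zero => exact ⟨z, by simpa using hz, by simp⟩
  | succ e ih =>
    obtain ⟨w, hw, h⟩ := ih
    refine ⟨ops.mul L w, ?_, by rw [W.cl_mul, h, pow_succ', mul_assoc]⟩
    have := ops.mul_mem hL hw
    rwa [show 1 + (e + q) = e + 1 + q by ring] at this

lemma rational {X : 𝒱.Obj} {L z w : X.Cycles} {q q' e : ℕ} (hL : X.IsCyc 1 L) (hz : X.IsCyc q z)
    (hw : X.IsCyc q' w) (h : e + (q + q') = X.dim) :
    ∃ r : ℚ, W.tr X (W.cl X L ^ e * (W.cl X z * W.cl X w)) = (r : W.K) := by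
  obtain ⟨y, hy, h1⟩ := pow_mul_alg W hL (ops.mul_mem hz hw) e
  rw [W.cl_mul] at h1
  rw [← h1]
  rw [h] at hy
  exact ⟨_, W.tr_cl hy⟩

lemma rational' {X : 𝒱.Obj} {L z : X.Cycles} {q e : ℕ} (hL : X.IsCyc 1 L) (hz : X.IsCyc q z)
    (h : e + q = X.dim) :
    ∃ r : ℚ, W.tr X (W.cl X L ^ e * W.cl X z) = (r : W.K) := by
  obtain ⟨y, hy, h1⟩ := pow_mul_alg W hL hz e
  rw [← h1]
  rw [h] at hy
  exact ⟨_, W.tr_cl hy⟩

end Strata

end Pool.Agent.Helper7K9.OL
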