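import Pool.Agent.Helper7K9.OL.KeyC

/-!
# Orthogonal lifting of one-cycles
-/

open CategoryTheory Finset

universe u v

namespace Pool.Agent.Helper7K9.OL

open Pool.Agent.H914 Pool.Agent.H914.VarClass Pool.Agent.H914.VarClass.Obj
  Pool.Agent.H914.WeilCohomology

section A

variable {k : Type u} [Field k] {𝒱 : VarClass k} {ops : CycleOps 𝒱}
  (W : WeilCohomology.{u, v} ops) {d : ℕ} (D : Strata 𝒱 d)

/-- Families of cycles of codimension `q`. -/
def Fam (p q : ℕ) : Submodule ℚ (∀ s : D.S p, (D.Y p s).Cycles) where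
  carrier := {z | ∀ s, (D.Y p s).IsCyc q (z s)}
  zero_mem' := fun s => SmVar.IsCyc.zero _ _
  add_mem' := fun hz hw s => SmVar.IsCyc.add (hz s) (hw s)
  smul_mem' := fun c _ hz s => SmVar.IsCyc.smul c (hz s)

/-- The class map on families. -/
noncomputable def clA (p : ℕ) : (∀ s : D.S p, (D.Y p s).Cycles) →+ Coh W D p where
  toFun := clF W D p
  map_zero' := by funext s; exact map_zero _
  map_add' := by intro z w; funext s; exact map_add _ _ _

/-- The pairing as a linear functional. -/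
noncomputable def pairL (p : ℕ) (x : Coh W D p) : Coh W D p →ₗ[W.K] W.K where
  toFun y := pair W D p x y
  map_add' := pair_add_right W D p x
  map_smul' := by
    intro c y
    simp [pair_def, mul_sum]

/-- The functional `- pair (res x) (res y)`. -/
noncomputable def psi (p : ℕ) : Coh W D p →+ (Coh W D p →ₗ[W.K] W.K) where
  toFun x := -(pairL W D (p + 1) (res W D p x) ∘ₗ res W D p)
  map_zero' := by
    ext
    simp [pairL, pair_def]
  map_add' := by
    intro x x'
    refine LinearMap.ext fun y => ?_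
    change - pair W D (p + 1) (res W D p (x + x')) (res W D p y) =
      - pair W D (p + 1) (res W D p x) (res W D p y) +
      - pair W D (p + 1) (res W D p x') (res W D p y)
    rw [map_add, pair_add_left, neg_add]

lemma psi_apply (p : ℕ) (x y : Coh W D p) :
    psi W D p x y = - pair W D (p + 1) (res W D p x) (res W D p y) := rfl

lemma pair_rat {p q q' : ℕ} (h : q + q' + p = d) {x y : Coh W D p}
    (hx : x ∈ Alg W D p q) (hy : y ∈ Alg W D p q') :
    ∃ r : ℚ, pair W D p x y = (r : W.K) := by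
  have h1 : ∀ s, ∃ r : ℚ, W.tr _ (x s * y s) = (r : W.K) := by
    intro s
    obtain ⟨z, hz, h2⟩ := hx s
    obtain ⟨w, hw, h3⟩ := hy s
    rw [← h2, ← h3, ← W.cl_mul]
    refine ⟨_, W.tr_cl ?_⟩
    have := D.dim_add p s
    have h4 := ops.mul_mem hz hw
    rwa [show q + q' = (D.Y p s).dim by omega] at h4
  choose r hr using h1
  refine ⟨∑ s, r s, ?_⟩
  rw [pair_def, sum_congr rfl fun s _ => hr s]
  simp

lemma pair_comm_even {p : ℕ} {x : Coh W D p} {e : ∀ _ : D.S p, ℕ}
    (hx : ∀ s, x s ∈ W.gr _ (2 * e s)) (y : Coh W D p) : pair W D p x y = pair W D p y x := by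
  rw [pair_def, pair_def]
  apply sum_congr rfl
  intro s _
  rw [W.even_comm (hx s)]

lemma cst_even (p : ℕ) (u : D.S p → ℚ) (s : D.S p) : cst W D p u s ∈ W.gr _ (2 * 0) :=
  Submodule.smul_mem _ _ (W.one_mem _)

end A

section B

variable {k : Type} [Field k] {𝒱 : VarClass k} {ops : CycleOps 𝒱}
  (W : WeilCohomology.{0, 0} ops) {d : ℕ} (D : Strata 𝒱 d) {L : ∀ p (s : D.S p), (D.Y p s).Cycles}

lemma radical (hd : 3 ≤ d) (hS : IsSemistable W D) (hL : IsPolarized W D L) {b : Coh W D 0}
    (hb : b ∈ Alg W D 0 1) (h : ∀ x ∈ Alg W D 0 (d - 2), pair W D 1 (res W D 0 x) (res W D 0 b) = 0)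
    {z : Coh W D 0} {a : Coh W D 1} {b' : Coh W D 3} (ha : ∀ s, a s ∈ W.gr _ (2 * (d - 2)))
    (h1 : z = gys W D 0 a) (h2 : res W D 1 a + gys W D 2 b' = 0) : pair W D 0 z b = 0 := by
  obtain ⟨c, hc, hbc⟩ := keyC W D hd hS hL hb (by
    intro x hx
    have hy : (fun s => W.cl _ (L 0 s) ^ (d - 3) * x s : Coh W D 0) ∈ Alg W D 0 (d - 2) := by
      intro s
      obtain ⟨w, hw, hwx⟩ := hx s
      obtain ⟨y, hy, hyw⟩ := pow_mul_alg W (hL.cyc 0 s) hw (d - 3)
      rw [show d - 3 + 1 = d - 2 by omega] at hy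
      exact ⟨y, hy, by rw [hyw, hwx]⟩
    have h3 := h _ hy
    rw [degF_comm W D hL _ _ (res_mem W D hb), ← h3, degF, pair_def]
    apply sum_congr rfl
    intro s _
    rw [← mul_assoc]
    congr 2
    rw [res_apply, res_apply, mul_sum]
    apply sum_congr rfl
    intro i _
    rw [map_mul, map_pow, hL.map', mul_smul_comm])
  rw [h1, adj, hbc, pair_comm_even W D ha, adj, pair_comm_even W D (cst_even W D 2 c),
    eq_neg_of_add_eq_zero_left h2]
  have h4 : pair W D 2 (gys W D 2 b') (cst W D 2 c) = 0 := by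
    rw [adj, res_cst, hc, map_zero]
    simp [pair_def]
  have h5 : pair W D 2 (-gys W D 2 b') (cst W D 2 c) = -pair W D 2 (gys W D 2 b') (cst W D 2 c) := by
    simp [pair_def]
  rw [h5, h4, neg_zero]

theorem local_ (hF : S_FR) (hd : 3 ≤ d) (M : Model) (v : M.Pl) (hS : IsSemistable W D)
    (hL : IsPolarized W D L) (G : Alteration M v D) (hG : IsCompatible G W)
    (hW : HasWeightBoundaries G W) (z : M.Ch)
    (hz : M.rest z ∈ M.ChX0) : ∃ a : M.A v, ∀ b, M.int v (z + M.ofA v a) b = 0 := by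
  obtain ⟨a, b', ha, _, h1, h2'⟩ := hW z hz
  rw [gysF_eq] at h1
  have h2 : res W D 1 a + gys W D 2 b' = 0 := by
    funext s
    have h3 := h2' s
    rw [resF_eq, gysF_eq] at h3
    exact h3
  have hψ : ∀ (α : Fam D 0 (d - 2)) (β : Fam D 0 1),
      ((psi W D 0).comp (clA W D 0)) α.1 (clA W D 0 β.1) =
        - pair W D 1 (res W D 0 (clF W D 0 α.1)) (res W D 0 (clF W D 0 β.1)) := fun _ _ => rfl
  obtain ⟨α, hα⟩ := hF W.K (Fam D 0 1) (Fam D 0 (d - 2)) (Coh W D 0)
    ((clA W D 0).comp (Fam D 0 1).subtype.toAddMonoidHom)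
    (((psi W D 0).comp (clA W D 0)).comp (Fam D 0 (d - 2)).subtype.toAddMonoidHom)
    (pairL W D 0 (clF W D 0 (G.spec z))) (by
      intro α β
      obtain ⟨r, hr⟩ := pair_rat W D (p := 1) (q := d - 2) (q' := 1) (by omega)
        (res_mem W D (clF_mem W D α.2)) (res_mem W D (clF_mem W D β.2))
      refine ⟨-r, ?_⟩
      rw [Rat.cast_neg, ← hr]
      rfl) (by
      intro β
      exact pair_rat W D (p := 0) (q := d - 1) (q' := 1) (by omega)
        (clF_mem W D (hG.spec_cyc z)) (clF_mem W D β.2)) (by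
      intro β hβ
      apply radical W D hd hS hL (clF_mem W D β.2) _ ha h1 h2
      intro x hx
      choose α hα hαx using hx
      have h3 := hβ ⟨α, hα⟩
      have h4 : clF W D 0 α = x := funext hαx
      have h5 : - pair W D 1 (res W D 0 (clF W D 0 α)) (res W D 0 (clF W D 0 β.1)) = 0 := h3
      rw [h4] at h5
      exact neg_eq_zero.1 h5)
  refine ⟨-(G.deg⁻¹ • G.push α.1), fun b => ?_⟩
  have h3 : - pair W D 1 (res W D 0 (clF W D 0 α.1)) (res W D 0 (clF W D 0 (G.divs b))) =
      pair W D 0 (clF W D 0 (G.spec z)) (clF W D 0 (G.divs b)) := hα ⟨G.divs b, hG.divs_cyc b⟩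
  have h4 := hG.int_push α.1 α.2 b
  rw [resF_eq, resF_eq] at h4
  rw [← hG.int_eq, ← h4, Rat.cast_inj] at h3
  change M.int v (M.ofA v (G.push α.1)) b = G.deg * M.int v z b at h3
  rw [map_neg, map_smul, map_add, map_neg, map_smul, LinearMap.add_apply, LinearMap.neg_apply,
    LinearMap.smul_apply, h3, smul_eq_mul, inv_mul_cancel_left₀ hG.deg_pos.ne', add_neg_cancel]

theorem global (hF : S_FR) (hd : 3 ≤ d) (M : Model) (h : HasSemistableAlterations M d) :
    M.OrthogonalLifting := by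
  classical
  intro c hc
  obtain ⟨z, rfl⟩ := M.rest_surj c
  have hfin := M.finite z hc
  have hloc : ∀ v, ∃ a : M.A v, ∀ b, M.int v (z + M.ofA v a) b = 0 := by
    intro v
    obtain ⟨k, _, _, 𝒱, ops, W, D, L, G, hS, hL, hG, hW⟩ := h v
    exact local_ W D hF hd M v hS hL G hG hW z hc
  choose a ha using hloc
  refine ⟨z + ∑ v ∈ hfin.toFinset, M.ofA v (a v), ?_, fun w b => ?_⟩
  · rw [map_add, map_sum, sum_eq_zero fun v _ => M.rest_ofA v (a v), add_zero]
  · have h1 : M.int w (z + ∑ v ∈ hfin.toFinset, M.ofA v (a v)) b = 0 := by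
      rw [map_add, map_sum, LinearMap.add_apply, LinearMap.sum_apply]
      by_cases hw : w ∈ hfin.toFinset
      · rw [Finset.sum_eq_single w]
        · rw [← LinearMap.add_apply, ← map_add, ha]
        · intro v _ hvw
          exact M.int_ne v w (a v) b hvw
        · intro h2
          exact absurd hw h2
      · rw [sum_eq_zero, add_zero]
        · by_contra h2
          exact hw (hfin.mem_toFinset.2 ⟨b, h2⟩)
        · intro v hv
          apply M.int_ne
          rintro rfl
          exact hw hv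
    rw [Model.GS, Model.num, h1, Rat.cast_zero, zero_mul]

end B

end Pool.Agent.Helper7K9.OL
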