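import Pool.Agent.Helper7K9.OL.St

/-!
# [FR]: existence of a rational solution
-/

set_option autoImplicit false

namespace Pool.Agent.Helper7K9.OL

open Module

/-- an additive map with rational values comes from a rational functional -/
theorem FrL_lin {K : Type} [Field K] [CharZero K] {V : Type} [AddCommGroup V] [Module ℚ V]
    (h : V →+ K) (hr : ∀ v, ∃ r : ℚ, h v = (r : K)) :
    ∃ g : Dual ℚ V, ∀ v, ((g v : ℚ) : K) = h v := by
  choose r hr using hr
  let g0 : V →+ ℚ :=
    { toFun := r
      map_zero' := by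
        have h1 := hr 0
        rw [map_zero] at h1
        exact_mod_cast h1.symm
      map_add' := fun x y => by
        have h1 := hr (x + y)
        rw [map_add, hr x, hr y] at h1
        exact_mod_cast h1.symm }
  exact ⟨g0.toRatLinearMap, fun v => (hr v).symm⟩

theorem fr : S_FR := by
  intro K _ _ V A H _ _ _ _ _ _ _ φ ψ f hψ hf h0
  -- the functionals `ψ a ∘ φ`
  let I : Submodule ℚ (Dual ℚ V) :=
    { carrier := {g | ∃ a, ∀ v, ((g v : ℚ) : K) = ψ a (φ v)}
      zero_mem' := ⟨0, fun v => by simp⟩
      add_mem' := by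
        rintro g g' ⟨a, ha⟩ ⟨a', ha'⟩
        refine ⟨a + a', fun v => ?_⟩
        rw [map_add, LinearMap.add_apply, LinearMap.add_apply, ← ha v, ← ha' v]
        push_cast
        rfl
      smul_mem' := by
        rintro q g ⟨a, ha⟩
        refine ⟨q • a, fun v => ?_⟩
        let ev : A →+ K :=
          { toFun := fun a => ψ a (φ v)
            map_zero' := by simp
            map_add' := fun x y => by rw [map_add, LinearMap.add_apply] }
        have h1 : ev (q • a) = q • ev a := map_rat_smul ev q a
        have h2 : ψ (q • a) (φ v) = q • ψ a (φ v) := h1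
        have h3 : q • ψ a (φ v) = (q : K) * ψ a (φ v) := Rat.smul_def q _
        rw [h2, h3, LinearMap.smul_apply, smul_eq_mul, Rat.cast_mul, ha v] }
  obtain ⟨F, hF⟩ := FrL_lin (f.toAddMonoidHom.comp φ) hf
  have hfg : (Submodule.span K (Set.range φ)).FG := IsNoetherian.noetherian _
  rw [Submodule.fg_span_iff_fg_span_finset_subset] at hfg
  obtain ⟨s, hs, hsp⟩ := hfg
  have hs' : ∀ x : s, ∃ v, φ v = x := fun x => hs x.2
  choose w hw using hs'
  let T : I →ₗ[ℚ] (s → ℚ) :=
    { toFun := fun g x => g.1 (w x)
      map_add' := fun g g' => rfl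
      map_smul' := fun q g => rfl }
  have hT : Function.Injective T := by
    rw [← LinearMap.ker_eq_bot, LinearMap.ker_eq_bot']
    rintro ⟨g, a, ha⟩ hg
    have h1 : ∀ x : s, ψ a x = 0 := by
      intro x
      rw [← hw x, ← ha (w x)]
      have h2 : g (w x) = 0 := congrFun hg x
      rw [h2, Rat.cast_zero]
    have h3 : Submodule.span K (Set.range φ) ≤ LinearMap.ker (ψ a) := by
      rw [hsp, Submodule.span_le]
      intro x hx
      exact h1 ⟨x, hx⟩
    apply Subtype.ext
    apply LinearMap.ext
    intro v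
    have h4 : φ v ∈ LinearMap.ker (ψ a) := h3 (Submodule.subset_span ⟨v, rfl⟩)
    have h5 : ((g v : ℚ) : K) = 0 := by
      rw [ha v]
      exact h4
    exact_mod_cast h5
  have : FiniteDimensional ℚ I := FiniteDimensional.of_injective T hT
  have hmem : F ∈ I.dualCoannihilator.dualAnnihilator := by
    rw [Submodule.mem_dualAnnihilator]
    intro v hv
    rw [Submodule.mem_dualCoannihilator] at hv
    have h1 : ∀ a, ψ a (φ v) = 0 := by
      intro a
      obtain ⟨g, hg⟩ := FrL_lin ((ψ a).toAddMonoidHom.comp φ) (hψ a)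
      have h2 : g ∈ I := ⟨a, hg⟩
      have h3 := hv g h2
      have h4 := hg v
      rw [h3, Rat.cast_zero] at h4
      exact h4.symm
    have h5 := hF v
    have h6 : ((F v : ℚ) : K) = 0 := by
      rw [h5]
      exact h0 v h1
    exact_mod_cast h6
  rw [Subspace.dualCoannihilator_dualAnnihilator_eq] at hmem
  obtain ⟨a, ha⟩ := hmem
  refine ⟨a, fun v => ?_⟩
  rw [← ha v, hF v]
  rfl

end Pool.Agent.Helper7K9.OL
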