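import Pool.Agent.Helper7K9.OL.Inst

/-!
# The key lemma for the strata
-/

open CategoryTheory Finset

universe u v

namespace Pool.Agent.Helper7K9.OL

open Pool.Agent.H914 Pool.Agent.H914.VarClass Pool.Agent.H914.VarClass.Obj
  Pool.Agent.H914.WeilCohomology

section B

variable {k : Type u} [Field k] {𝒱 : VarClass k} {ops : CycleOps 𝒱}
  (W : WeilCohomology.{u, v} ops) {d : ℕ} (D : Strata 𝒱 d) {L : ∀ p (s : D.S p), (D.Y p s).Cycles}

lemma nontriv (hL : IsPolarized W D L) (p : ℕ) (s : D.S p) : Nontrivial (W.H (D.Y p s)) := by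
  by_contra h
  rw [not_nontrivial_iff_subsingleton] at h
  obtain ⟨r, hr, h1⟩ := hL.pos' p s
  rw [Subsingleton.elim (W.cl (D.Y p s) (L p s) ^ (D.Y p s).dim) 0, map_zero] at h1
  have : r = 0 := by exact_mod_cast h1.symm
  exact absurd this hr.ne'

lemma E_pos (hL : IsPolarized W D L) (p e : ℕ) (h : e + p = d) (u : D.S p → ℚ) :
    ∃ r : ℚ, degF W D L p e (cst W D p u) (cst W D p u) = (r : W.K) ∧ 0 ≤ r ∧ (r = 0 → u = 0) := by
  have h1 : ∀ s, ∃ r : ℚ, 0 < r ∧ W.tr _ (W.cl _ (L p s) ^ e) = (r : W.K) := by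
    intro s
    have h2 := hL.pos' p s
    have h3 : (D.Y p s).dim = e := by
      have := D.dim_add p s
      omega
    rwa [h3] at h2
  choose r hr hr' using h1
  refine ⟨∑ s, u s * (u s * r s), ?_, ?_, ?_⟩
  · rw [degF_cst_right]
    push_cast
    apply sum_congr rfl
    intro s _
    simp only [cst, AddMonoidHom.coe_mk, ZeroHom.coe_mk]
    rw [mul_smul_comm, mul_one, map_smul, hr', smul_eq_mul]
  · apply sum_nonneg
    intro s _
    have := mul_self_nonneg (u s)
    have := (hr s).le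
    rw [← mul_assoc]
    positivity
  · intro h0
    rw [sum_eq_zero_iff_of_nonneg] at h0
    · funext s
      have h2 := h0 s (mem_univ s)
      rw [← mul_assoc] at h2
      rcases mul_eq_zero.1 h2 with h2 | h2
      · exact mul_self_eq_zero.1 h2
      · exact absurd h2 (hr s).ne'
    · intro s _
      have := mul_self_nonneg (u s)
      have := (hr s).le
      rw [← mul_assoc]
      positivity

lemma degF_lf_right (hL : IsPolarized W D L) (p e : ℕ) {q : ℕ} {x : Coh W D p}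
    (hx : x ∈ Alg W D p q) (u : D.S p → ℚ) :
    degF W D L p e x (lf W D L p u) =
      ∑ s, ((u s : ℚ) : W.K) * W.tr _ (W.cl _ (L p s) ^ (e + 1) * x s) := by
  rw [degF_comm W D hL p e hx, degF_lf_left, degF_comm W D hL p (e + 1) (cst_mem W D p u),
    degF_cst_right]

lemma HI (hL : IsPolarized W D L) (p e : ℕ) (h : e + 2 + p = d) {x : Coh W D p}
    (hx : x ∈ Alg W D p 1) (h0 : ∀ u, degF W D L p e x (lf W D L p u) = 0) :
    ∃ r : ℚ, degF W D L p e x x = (r : W.K) ∧ r ≤ 0 ∧ (r = 0 → x = 0) := by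
  have hdim : ∀ s, (D.Y p s).dim = e + 2 := by
    intro s
    have := D.dim_add p s
    omega
  have h1 : ∀ s, ∃ r : ℚ, W.tr _ (W.cl _ (L p s) ^ e * (x s * x s)) = (r : W.K) ∧ r ≤ 0 ∧
      (r = 0 → x s = 0) := by
    intro s
    obtain ⟨z, hz, hzx⟩ := hx s
    have h2 : W.tr _ (W.cl _ (L p s) ^ (e + 1) * W.cl _ z) = 0 := by
      have h3 := h0 (Pi.single s 1)
      rw [degF_lf_right W D hL p e hx, Finset.sum_eq_single s] at h3
      · rw [Pi.single_eq_same] at h3
        simpa [hzx] using h3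
      · intro t _ ht
        rw [Pi.single_eq_of_ne ht]
        simp
      · intro h4
        exact absurd (mem_univ s) h4
    obtain ⟨r, hr⟩ := rational W (hL.cyc p s) hz hz (e := e) (by rw [hdim])
    refine ⟨r, by rw [← hzx, hr], ?_⟩
    rw [← hzx]
    exact hL.index' p s e (hdim s) z hz h2 r hr
  choose r hr hr' hr'' using h1
  refine ⟨∑ s, r s, ?_, sum_nonpos fun s _ => hr' s, ?_⟩
  · rw [degF]
    push_cast
    exact sum_congr rfl fun s _ => hr s
  · intro h2
    rw [sum_eq_zero_iff_of_nonpos fun s _ => hr' s] at h2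
    funext s
    exact hr'' s (h2 s (mem_univ s))

/-- Restriction on algebraic classes. -/
noncomputable def resA (p q : ℕ) : Alg W D p q →+ Alg W D (p + 1) q :=
  ((res W D p).toAddMonoidHom.comp (Alg W D p q).subtype).codRestrict _
    fun x => res_mem W D x.2

/-- The Gysin map on functions. -/
noncomputable def gysA (p : ℕ) : (D.S (p + 1) → ℚ) →+ Alg W D p 1 :=
  ((gys W D p).toAddMonoidHom.comp (cst W D (p + 1))).codRestrict _
    fun u => gys_mem W D (cst_mem W D (p + 1) u)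

/-- Multiples of the divisor class. -/
noncomputable def lfA (hL : IsPolarized W D L) (p : ℕ) : (D.S p → ℚ) →+ Alg W D p 1 :=
  (lf W D L p).codRestrict _ fun u => lf_mem W D hL p u

/-- The form with rational values. -/
noncomputable def form (L : ∀ p (s : D.S p), (D.Y p s).Cycles) (π : W.K →+ ℚ) (p e : ℕ) :
    Coh W D p →+ Coh W D p →+ ℚ :=
  AddMonoidHom.mk' (fun x => AddMonoidHom.mk' (fun y => π (degF W D L p e x y))
    fun y y' => by rw [degF_add_right, map_add]) fun x x' => by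
      refine AddMonoidHom.ext fun y => ?_
      change π (degF W D L p e (x + x') y) = π (degF W D L p e x y) + π (degF W D L p e x' y)
      rw [degF_add_left, map_add]

lemma form_apply (π : W.K →+ ℚ) (p e : ℕ) (x y : Coh W D p) :
    form W D L π p e x y = π (degF W D L p e x y) := rfl

/-- The form on two groups mapping to the cohomology. -/
noncomputable def form2 {X Y : Type*} [AddCommGroup X] [AddCommGroup Y]
    (L : ∀ p (s : D.S p), (D.Y p s).Cycles) (π : W.K →+ ℚ) (p e : ℕ)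
    (f : X →+ Coh W D p) (g : Y →+ Coh W D p) : X →+ Y →+ ℚ :=
  AddMonoidHom.mk' (fun x => (form W D L π p e (f x)).comp g) fun x x' => by
    rw [map_add, map_add, AddMonoidHom.add_comp]

lemma form2_apply {X Y : Type*} [AddCommGroup X] [AddCommGroup Y] (π : W.K →+ ℚ) (p e : ℕ)
    (f : X →+ Coh W D p) (g : Y →+ Coh W D p) (x : X) (y : Y) :
    form2 W D L π p e f g x y = π (degF W D L p e (f x) (g y)) := rfl

lemma exists_pi (K : Type*) [Field K] [CharZero K] :
    ∃ π : K →ₗ[ℚ] ℚ, ∀ r : ℚ, π (r : K) = r := by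
  obtain ⟨π, hπ⟩ := LinearMap.exists_leftInverse_of_injective (Algebra.linearMap ℚ K)
    (LinearMap.ker_eq_bot.2 (algebraMap ℚ K).injective)
  refine ⟨π, fun r => ?_⟩
  have := LinearMap.congr_fun hπ r
  simpa using this

end B

section C

variable {k : Type u} [Field k] {𝒱 : VarClass k} {ops : CycleOps 𝒱}
  (W : WeilCohomology.{u, 0} ops) {d : ℕ} (D : Strata 𝒱 d) {L : ∀ p (s : D.S p), (D.Y p s).Cycles}

theorem keyC (hd : 3 ≤ d) (hS : IsSemistable W D) (hL : IsPolarized W D L) {b : Coh W D 0}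
    (hb : b ∈ Alg W D 0 1)
    (H : ∀ x ∈ Alg W D 0 1, degF W D L 1 (d - 3) (res W D 0 b) (res W D 0 x) = 0) :
    ∃ c : D.S 2 → ℚ, sc D 2 c = 0 ∧ res W D 0 b = gys W D 1 (cst W D 2 c) := by
  have := nontriv W D hL
  obtain ⟨π, hπ⟩ := exists_pi W.K
  have hinj := fun p => cst_injective W D p
  obtain ⟨r, hr, hr'⟩ : ∃ r : D.S 1 → ℚ, (∀ s, 0 < r s) ∧
      ∀ s, W.tr _ (W.cl _ (L 1 s) ^ (d - 3 + 2)) = (r s : W.K) := by
    have h1 : ∀ s, ∃ r : ℚ, 0 < r ∧ W.tr _ (W.cl _ (L 1 s) ^ (d - 3 + 2)) = (r : W.K) := by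
      intro s
      have h2 := hL.pos' 1 s
      have h3 : (D.Y 1 s).dim = d - 3 + 2 := by
        have := D.dim_add 1 s
        omega
      rwa [h3] at h2
    choose r hr hr' using h1
    exact ⟨r, hr, hr'⟩
  -- the coefficient of `L`
  let t : Alg W D 1 1 →+ (D.S 1 → ℚ) := AddMonoidHom.mk'
    (fun x s => π (W.tr _ (W.cl _ (L 1 s) ^ (d - 3 + 1) * x.1 s)) / r s) (by
      intro x y
      funext s
      simp only [AddSubgroup.coe_add, Pi.add_apply, mul_add, map_add, add_div])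
  have ht : ∀ x s, t x s = π (W.tr _ (W.cl _ (L 1 s) ^ (d - 3 + 1) * x.1 s)) / r s :=
    fun _ _ => rfl
  have key := lemk (Alg W D 0 1) (Alg W D 1 1) (Alg W D 2 1) (D.S 0 → ℚ) (D.S 1 → ℚ) (D.S 2 → ℚ)
    (D.S 3 → ℚ) (resA W D 0 1) (resA W D 1 1) (sc D 0) (sc D 1) (sc D 2) (gysA W D 0) (gysA W D 1)
    (gysA W D 2) (lfA W D hL 0) (lfA W D hL 1) (lfA W D hL 2) t
    (form2 W D L π 0 (d - 3 + 1) (Alg W D 0 1).subtype (Alg W D 0 1).subtype)
    (form2 W D L π 1 (d - 3) (Alg W D 1 1).subtype (Alg W D 1 1).subtype)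
    (form2 W D L π 2 (d - 3) (Alg W D 2 1).subtype (cst W D 2))
    (form2 W D L π 1 (d - 3 + 2) (cst W D 1) (cst W D 1))
    (form2 W D L π 2 (d - 3 + 1) (cst W D 2) (cst W D 2))
    (form2 W D L π 3 (d - 3) (cst W D 3) (cst W D 3))
    ?_ ?_ ?_ ?_ ?_ ?_ ?_ ?_ ?_ ?_ ?_ ?_ ?_ ?_ ?_ ?_ ?_ ?_ ?_ ?_ ⟨b, hb⟩ ?_
  · obtain ⟨c, h1, h2⟩ := key
    exact ⟨c, h1, congrArg Subtype.val h2⟩
  · intro x
    exact Subtype.ext (hS.res_res' 0 x.1)
  · intro u
    apply hinj 3
    rw [← res_cst, ← res_cst, hS.res_res', map_zero]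
  · intro u
    apply Subtype.ext
    have h1 := hS.res_gys' 0 (cst W D 1 u)
    rw [res_cst] at h1
    exact eq_neg_of_add_eq_zero_left h1
  · intro u
    apply Subtype.ext
    have h1 := hS.res_gys' 1 (cst W D 2 u)
    rw [res_cst] at h1
    exact eq_neg_of_add_eq_zero_left h1
  · intro u
    exact Subtype.ext (res_lf W D hL 0 u)
  · intro u
    exact Subtype.ext (res_lf W D hL 1 u)
  · intro u x
    rw [form2_apply, form2_apply]
    change π (degF W D L 0 (d - 3 + 1) (gys W D 0 (cst W D 1 u)) x.1) =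
      π (degF W D L 1 (d - 3) (lf W D L 1 u) (res W D 0 x.1))
    rw [degF_adj W D hL, degF_lf_left]
  · intro c y
    rw [form2_apply, form2_apply]
    change π (degF W D L 1 (d - 3) (gys W D 1 (cst W D 2 c)) y.1) =
      π (degF W D L 2 (d - 3) (res W D 1 y.1) (cst W D 2 c))
    rw [degF_adj W D hL, degF_comm W D hL _ _ (cst_mem W D 2 c)]
  · intro w c
    rw [form2_apply, form2_apply]
    change π (degF W D L 2 (d - 3) (gys W D 2 (cst W D 3 w)) (cst W D 2 c)) =
      π (degF W D L 3 (d - 3) (cst W D 3 w) (cst W D 3 (sc D 2 c)))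
    rw [degF_adj W D hL, res_cst]
  · intro c c'
    rw [form2_apply, form2_apply]
    change π (degF W D L 2 (d - 3) (lf W D L 2 c) (cst W D 2 c')) = _
    rw [degF_lf_left]
    rfl
  · intro u u'
    rw [form2_apply, form2_apply]
    change π (degF W D L 1 (d - 3) (lf W D L 1 u) (lf W D L 1 u')) = _
    rw [degF_lf_left, degF_comm W D hL _ _ (cst_mem W D 1 u), degF_lf_left,
      degF_comm W D hL _ _ (cst_mem W D 1 u')]
    rfl
  · intro x y
    rw [form2_apply, form2_apply]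
    exact congrArg π (degF_comm W D hL _ _ x.2 _)
  · intro x y
    rw [form2_apply, form2_apply]
    exact congrArg π (degF_comm W D hL _ _ x.2 _)
  · intro u
    obtain ⟨r, h1, h2, _⟩ := E_pos W D hL 1 (d - 3 + 2) (by omega) u
    rw [form2_apply, h1]
    exact (hπ r).symm ▸ h2
  · intro u hu
    obtain ⟨r, h1, _, h3⟩ := E_pos W D hL 1 (d - 3 + 2) (by omega) u
    rw [form2_apply, h1] at hu
    exact h3 ((hπ r).symm.trans hu)
  · intro u hu
    obtain ⟨r, h1, _, h3⟩ := E_pos W D hL 2 (d - 3 + 1) (by omega) u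
    rw [form2_apply, h1] at hu
    exact h3 ((hπ r).symm.trans hu)
  · intro u hu
    obtain ⟨r, h1, _, h3⟩ := E_pos W D hL 3 (d - 3) (by omega) u
    rw [form2_apply, h1] at hu
    exact h3 ((hπ r).symm.trans hu)
  · intro x u
    rw [form2_apply]
    change π (degF W D L 1 (d - 3) (x.1 - lf W D L 1 (t x)) (lf W D L 1 u)) = 0
    rw [degF_lf_right W D hL 1 (d - 3) (AddSubgroup.sub_mem _ x.2 (lf_mem W D hL 1 (t x))), map_sum]
    apply sum_eq_zero
    intro s _
    have h1 : ((u s : ℚ) : W.K) * W.tr _ (W.cl _ (L 1 s) ^ (d - 3 + 1) *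
        (x.1 - lf W D L 1 (t x)) s) = u s • (W.tr _ (W.cl _ (L 1 s) ^ (d - 3 + 1) * x.1 s) -
          (((t x s) * r s : ℚ) : W.K)) := by
      rw [Pi.sub_apply, mul_sub, map_sub]
      have h2 : lf W D L 1 (t x) s = ((t x s : ℚ) : W.K) • W.cl _ (L 1 s) := rfl
      rw [h2, mul_smul_comm, map_smul, ← pow_succ, hr', smul_eq_mul, ← Rat.cast_mul,
        Rat.smul_def]
    rw [h1, map_smul, map_sub, hπ, ht, div_mul_cancel₀ _ (hr s).ne', sub_self, smul_zero]
  · intro x hx
    have h0 : ∀ u, degF W D L 1 (d - 3) x.1 (lf W D L 1 u) = 0 := by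
      intro u
      obtain ⟨r, hr⟩ := degF_rat W D hL (p := 1) (e := d - 3) (q := 1) (q' := 1) (by omega) x.2
        (lf_mem W D hL 1 u)
      have h1 := hx u
      rw [form2_apply] at h1
      change π (degF W D L 1 (d - 3) x.1 (lf W D L 1 u)) = 0 at h1
      rw [hr, hπ] at h1
      rw [hr, h1, Rat.cast_zero]
    obtain ⟨r, h1, h2, h3⟩ := HI W D hL 1 (d - 3) (by omega) x.2 h0
    rw [form2_apply]
    change π (degF W D L 1 (d - 3) x.1 x.1) ≤ 0 ∧ (π (degF W D L 1 (d - 3) x.1 x.1) = 0 → x = 0)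
    rw [h1, hπ]
    exact ⟨h2, fun h => Subtype.ext (h3 h)⟩
  · intro x hx h0'
    have h0 : ∀ u, degF W D L 0 (d - 3 + 1) x.1 (lf W D L 0 u) = 0 := by
      intro u
      obtain ⟨r, hr⟩ := degF_rat W D hL (p := 0) (e := d - 3 + 1) (q := 1) (q' := 1) (by omega) x.2
        (lf_mem W D hL 0 u)
      have h1 := hx u
      rw [form2_apply] at h1
      change π (degF W D L 0 (d - 3 + 1) x.1 (lf W D L 0 u)) = 0 at h1
      rw [hr, hπ] at h1
      rw [hr, h1, Rat.cast_zero]
    obtain ⟨r, h1, h2, h3⟩ := HI W D hL 0 (d - 3 + 1) (by omega) x.2 h0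
    rw [form2_apply] at h0'
    change π (degF W D L 0 (d - 3 + 1) x.1 x.1) = 0 at h0'
    rw [h1, hπ] at h0'
    exact Subtype.ext (h3 h0')
  · intro x
    rw [form2_apply]
    change π (degF W D L 1 (d - 3) (res W D 0 b) (res W D 0 x.1)) = 0
    rw [H x.1 x.2, map_zero]

end C

end Pool.Agent.Helper7K9.OL
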