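import Pool.Agent.Helper7K9.OL.Main
import Pool.Agent.Helper7K9.OL.Fr

/-!
# Orthogonal lifting of one-cycles
-/

namespace Pool.Agent.Helper7K9.OL

theorem all {d : ℕ} (hd : 3 ≤ d) (M : Model) (h : HasSemistableAlterations M d) :
    M.OrthogonalLifting := global fr hd M h

end Pool.Agent.Helper7K9.OL
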