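import Pool.Agent.H914R2.WeilBasic

/-!
# Strata of strictly semistable models, Chow groups of arithmetic models: definitions
-/

open CategoryTheory

universe u v

namespace Pool.Agent.Helper7K9.OL

open Pool.Agent.H914 Pool.Agent.H914.VarClass Pool.Agent.H914.VarClass.Obj
  Pool.Agent.H914.WeilCohomology

section Strata

variable {k : Type u} [Field k]

/-- The strata of a variety of dimension `d` over the algebraically closed field `k` with simple
normal crossings, the union of smooth components numbered by a finite ordered set: `S p` is the
set of the connected components `Y p s` of the intersections of `p + 1` different components. If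
`Y (p + 1) s` is a connected component of the intersection of the components with the numbers
`j_0 < ... < j_(p+1)`, then `Y p (face p i s)` is the connected component, containing it, of the
intersection with `j_i` omitted, and `inc p i s` is the inclusion. -/
structure Strata (𝒱 : VarClass k) (d : ℕ) where
  S : ℕ → Type
  fin : ∀ p, Fintype (S p)
  dec : ∀ p, DecidableEq (S p)
  Y : ∀ p, S p → 𝒱.Obj
  dim_add : ∀ p s, (Y p s).dim + p = d
  face : ∀ p, Fin (p + 2) → S (p + 1) → S p
  inc : ∀ p i s, Y (p + 1) s ⟶ Y p (face p i s)

attribute [instance] Strata.fin Strata.dec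

variable {𝒱 : VarClass k} {ops : CycleOps 𝒱} (W : WeilCohomology.{u, v} ops) {d : ℕ}
  (D : Strata 𝒱 d)

/-- The cohomology of the disjoint union of the `(p + 1)`-fold intersections. -/
abbrev Coh (p : ℕ) : Type v := ∀ s : D.S p, W.H (D.Y p s)

variable {X X' : 𝒱.Obj}

/-- The class of a cycle. -/
noncomputable def cls (z : X.Cycles) : W.H X := W.cl X z

/-- The pull-back of a class. -/
noncomputable def pb (f : X ⟶ X') (y : W.H X') : W.H X := W.map f y

/-- The push-forward of a class. -/
noncomputable def pf (f : X ⟶ X') (x : W.H X) : W.H X' := W.push f x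

/-- The degree of a class. -/
noncomputable def dg (x : W.H X) : W.K := W.tr X x

/-- The class `(-1) ^ i x`. -/
noncomputable def sgn (i : ℕ) (x : W.H X) : W.H X := (-1 : W.K) ^ i • x

/-- The alternating sum `ρ` of the restriction maps. -/
noncomputable def resF (p : ℕ) (x : Coh W D p) : Coh W D (p + 1) := fun s =>
  ∑ i : Fin (p + 2), sgn W i (pb W (D.inc p i s) (x (D.face p i s)))

/-- The alternating sum `γ` of the Gysin maps (push-forwards). -/
noncomputable def gysF (p : ℕ) (x : Coh W D (p + 1)) : Coh W D p := fun t =>
  ∑ s : D.S (p + 1), ∑ i : Fin (p + 2),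
    Pi.single (M := fun t => W.H (D.Y p t)) (D.face p i s) (sgn W i (pf W (D.inc p i s) (x s))) t

/-- The family of the classes of a family of cycles. -/
noncomputable def clF (p : ℕ) (z : ∀ s : D.S p, (D.Y p s).Cycles) : Coh W D p :=
  fun s => cls W (z s)

/-- The sum of the degrees of the products of two families of classes. -/
noncomputable def pair (p : ℕ) (x y : Coh W D p) : W.K := ∑ s, dg W (x s * y s)

/-- The relations `ρρ = 0` and `ργ + γρ = 0`: they say that `ρ + γ` is a differential (the
differential of the weight spectral sequence of Rapoport and Zink) and hold for the closed fibre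
of a strictly semistable scheme over a discrete valuation ring. -/
structure IsSemistable : Prop where
  res_res : ∀ p x s, resF W D (p + 1) (resF W D p x) s = 0
  res_gys : ∀ p x s, resF W D p (gysF W D p x) s + gysF W D (p + 1) (resF W D (p + 1) x) s = 0

/-- The Hodge index theorem for divisors on a smooth projective variety of dimension `m + 2` and the
class `l` of an ample divisor: if `l ^ (m + 1) z = 0`, then `l ^ m z ^ 2 ≤ 0`, with equality only if
`z` is homologically equivalent to zero. -/
def HodgeIndex (X : 𝒱.Obj) (l : W.H X) : Prop :=
  ∀ m, X.dim = m + 2 → ∀ z : X.Cycles, X.IsCyc 1 z → dg W (l ^ (m + 1) * cls W z) = 0 →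
    ∀ r : ℚ, dg W (l ^ m * (cls W z * cls W z)) = (r : W.K) → r ≤ 0 ∧ (r = 0 → cls W z = 0)

/-- The divisors `L p s` on the strata are (up to rational equivalence) the restrictions of an ample
divisor: they have positive degree, and the Hodge index theorem holds. -/
structure IsPolarized (L : ∀ p (s : D.S p), (D.Y p s).Cycles) : Prop where
  cyc : ∀ p s, (D.Y p s).IsCyc 1 (L p s)
  map : ∀ p i s, pb W (D.inc p i s) (cls W (L p (D.face p i s))) = cls W (L (p + 1) s)
  pos : ∀ p s, ∃ r : ℚ, 0 < r ∧ dg W (cls W (L p s) ^ (D.Y p s).dim) = (r : W.K)
  index : ∀ p s, HodgeIndex W (D.Y p s) (cls W (L p s))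

end Strata

/-- The Chow groups with rational coefficients which occur in the problem, for a regular scheme
`𝒳`, proper and flat over the ring of integers of a number field, with smooth generic fibre `X` of
dimension `d`, and for the codimension `d - 1` (cycles of dimension one on `X`). -/
structure Model where
  /-- the closed points of the spectrum of the ring of integers -/
  Pl : Type
  /-- the logarithm of the order of the residue field -/
  logN : Pl → ℝ
  /-- `Ch^(d-1)(X)` -/
  ChX : Type
  [addX : AddCommGroup ChX]
  [modX : Module ℚ ChX]
  /-- the cohomologically trivial classes -/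
  ChX0 : Submodule ℚ ChX
  /-- `Ch^(d-1)(𝒳)` -/
  Ch : Type
  [addCh : AddCommGroup Ch]
  [modCh : Module ℚ Ch]
  /-- restriction to the generic fibre -/
  rest : Ch →ₗ[ℚ] ChX
  rest_surj : Function.Surjective rest
  /-- the Chow group of two-dimensional cycles on the fibre `𝒳_v` (of dimension `d`) -/
  A : Pl → Type
  [addA : ∀ v, AddCommGroup (A v)]
  [modA : ∀ v, Module ℚ (A v)]
  /-- the Chow group of `(d-1)`-dimensional cycles on `𝒳_v`; `Ch^2_fin(𝒳)` is the sum of the images
  of the groups `B v` -/
  B : Pl → Type
  [addB : ∀ v, AddCommGroup (B v)]
  [modB : ∀ v, Module ℚ (B v)]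
  /-- push-forward to `𝒳` -/
  ofA : ∀ v, A v →ₗ[ℚ] Ch
  rest_ofA : ∀ v a, rest (ofA v a) = 0
  /-- the intersection number, over the residue field, of a class on `𝒳` and a cycle on `𝒳_v` -/
  int : ∀ v, Ch →ₗ[ℚ] B v →ₗ[ℚ] ℚ
  /-- cycles on different fibres are disjoint -/
  int_ne : ∀ v w a b, v ≠ w → int w (ofA v a) b = 0
  /-- cohomologically trivial classes are numerically trivial on almost all fibres (specialization
  at the fibres which are smooth) -/
  finite : ∀ z, rest z ∈ ChX0 → {v | ∃ b, int v z b ≠ 0}.Finite

attribute [instance] Model.addX Model.modX Model.addCh Model.modCh Model.addA Model.modA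
  Model.addB Model.modB

/-- The intersection number of `z` and `b`. -/
def Model.num (M : Model) (v : M.Pl) (z : M.Ch) (b : M.B v) : ℚ := M.int v z b

/-- The arithmetic intersection number of Gillet and Soulé of a class `z` on `𝒳` and a cycle `b` on
the fibre over `v` (for such cycles no Green current is needed). -/
noncomputable def Model.GS (M : Model) (z : M.Ch) (v : M.Pl) (b : M.B v) : ℝ :=
  (M.num v z b : ℝ) * M.logN v

/-- The assertion Q1 for `𝒳` in codimension `d - 1`: every cohomologically trivial class on `X` is
the restriction of a class on `𝒳` whose pairing with all classes supported in closed fibres is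
zero. -/
def Model.OrthogonalLifting (M : Model) : Prop :=
  ∀ c ∈ M.ChX0, ∃ z, M.rest z = c ∧ ∀ v b, M.GS z v b = 0

variable {k : Type} [Field k] {𝒱 : VarClass k} {ops : CycleOps 𝒱}

/-- The maps attached to a strictly semistable alteration of `𝒳` over `v`: a proper dominant morphism
`g : 𝒳' → 𝒳`, where `𝒳'` is projective and strictly semistable over a complete discrete valuation
ring with residue field `k`, the completion of the maximal unramified extension of a finite extension
`R'` of the completed local ring at `v`, and `𝒳'` comes from an alteration (a proper, dominant and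
generically finite morphism) of the base change of `𝒳` to `R'`. The strata of the closed fibre of `𝒳'` are
`D`; all cycles on it are defined over unramified extensions of finite degree, so that they have
push-forwards on `𝒳_v`, which we divide by the residue degree. -/
structure Alteration (M : Model) (v : M.Pl) {d : ℕ} (D : Strata 𝒱 d) where
  /-- the degree of `g` divided by the residue degree -/
  deg : ℚ
  /-- the restriction of `g^* z` to the components of the closed fibre -/
  spec : M.Ch → ∀ t, (D.Y 0 t).Cycles
  /-- the pull-back of `b`, as a sum of divisors on the components of the closed fibre -/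
  divs : M.B v → ∀ t, (D.Y 0 t).Cycles
  /-- the push-forward to `𝒳_v` of the sum of the cycles `α t` of dimension two on the components -/
  push : (∀ t, (D.Y 0 t).Cycles) → M.A v

variable {M : Model} {v : M.Pl} {d : ℕ} {D : Strata 𝒱 d}

/-- The codimensions, and the projection formulas: `g^* z · g^* b` has degree `deg (z · b)`, and the
intersection number of `push α` and `b` is the intersection number of `α` and `g^* b`; by the formula for
the intersection number of two cycles `α` and `β` on the closed fibre of a strictly semistable scheme
this is `- Σ deg ((ρ α)_s (ρ β)_s)`, the sum over the intersections of two components. -/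
structure IsCompatible (G : Alteration M v D) (W : WeilCohomology.{0, 0} ops) : Prop where
  deg_pos : 0 < G.deg
  spec_cyc : ∀ z t, (D.Y 0 t).IsCyc (d - 1) (G.spec z t)
  divs_cyc : ∀ b t, (D.Y 0 t).IsCyc 1 (G.divs b t)
  int_eq : ∀ z b, ((G.deg * M.num v z b : ℚ) : W.K) =
    pair W D 0 (clF W D 0 (G.spec z)) (clF W D 0 (G.divs b))
  int_push : ∀ α, (∀ t, (D.Y 0 t).IsCyc (d - 2) (α t)) → ∀ b,
    ((M.num v (M.ofA v (G.push α)) b : ℚ) : W.K) =
      - pair W D 1 (resF W D 0 (clF W D 0 α)) (resF W D 0 (clF W D 0 (G.divs b)))

/-- The family `x` of classes of degree `2d - 2` on the components is, as an element of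
`E_1^(0,2d-2)`, the image under `ρ + γ` of an element `a + b` of `E_1^(-1,2d-2)`, the sum of the
cohomology in degree `2d - 4` of the double intersections and in degree `2d - 6` of the fourfold
intersections. -/
def IsBoundary (W : WeilCohomology.{0, 0} ops) (D : Strata 𝒱 d) (x : Coh W D 0) : Prop :=
  ∃ (a : Coh W D 1) (b : Coh W D 3),
    (∀ s, a s ∈ W.gr _ (2 * (d - 2))) ∧ (∀ s, b s ∈ W.gr _ (2 * (d - 3))) ∧
    x = gysF W D 0 a ∧ ∀ s, resF W D 1 a s + gysF W D 2 b s = 0

/-- The weight spectral sequence of Rapoport and Zink, which degenerates at `E_2`: if `z` is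
cohomologically trivial on `X`, then the element of `E_1` given by the classes of `g^* z` on the
components is a boundary. -/
def HasWeightBoundaries (G : Alteration M v D) (W : WeilCohomology.{0, 0} ops) : Prop :=
  ∀ z, M.rest z ∈ M.ChX0 → IsBoundary W D (clF W D 0 (G.spec z))

/-- At every place there is a strictly semistable alteration (theorem of de Jong), with the
properties above. -/
def HasSemistableAlterations (M : Model) (d : ℕ) : Prop :=
  ∀ v : M.Pl, ∃ (k : Type) (_ : Field k) (_ : IsAlgClosed k) (𝒱 : VarClass k) (ops : CycleOps 𝒱)
    (W : WeilCohomology.{0, 0} ops) (D : Strata 𝒱 d) (L : ∀ p (s : D.S p), (D.Y p s).Cycles)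
    (G : Alteration M v D),
    IsSemistable W D ∧ IsPolarized W D L ∧ IsCompatible G W ∧ HasWeightBoundaries G W

end Pool.Agent.Helper7K9.OL
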