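import Pool.Agent.Helper7K9.OL.St

/-!
# [LEMK]: the key lemma
-/

set_option autoImplicit false

namespace Pool.Agent.Helper7K9.OL

open Module

/-- a functional which vanishes on the kernel of a symmetric form is represented by the form -/
theorem LemkL_repr {U : Type} [AddCommGroup U] [Module ℚ U] [Module.Finite ℚ U]
    (q : U →+ U →+ ℚ) (hq : ∀ c c', q c c' = q c' c) (L : U →+ ℚ)
    (hL : ∀ c, (∀ c', q c c' = 0) → L c = 0) : ∃ c, ∀ c', q c c' = L c' := by
  let Q : U →+ Dual ℚ U :=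
    { toFun := fun c => (q c).toRatLinearMap
      map_zero' := by
        ext c
        simp
      map_add' := fun a b => by
        ext c
        simp }
  let Q' : U →ₗ[ℚ] Dual ℚ U := Q.toRatLinearMap
  have hQ : ∀ c c', Q' c c' = q c c' := fun c c' => rfl
  have hmem : L.toRatLinearMap ∈ (LinearMap.range Q').dualCoannihilator.dualAnnihilator := by
    rw [Submodule.mem_dualAnnihilator]
    intro v hv
    rw [Submodule.mem_dualCoannihilator] at hv
    apply hL
    intro c'
    rw [hq v c', ← hQ]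
    exact hv (Q' c') ⟨c', rfl⟩
  rw [Subspace.dualCoannihilator_dualAnnihilator_eq] at hmem
  obtain ⟨c, hc⟩ := hmem
  refine ⟨c, fun c' => ?_⟩
  rw [← hQ, hc]
  rfl

theorem lemk : S_LEMK := by
  intro D0 D1 D2 U0 U1 U2 U3 _ _ _ _ _ _ _ _ _ r0 r1 s0 s1 s2 g0 g1 g2 l0 l1 l2 t B0 B1 P E1 E2 E3
    hr hs hrg hrg1 hrl hrl1 hB0 hB1 hPg hPl hE1 symB0 symB1 posE1 defE1 defE2 defE3 hproj hH1 hH0
    b hb
  -- the projection
  have hp : ∀ x u, B1 (l1 u) x = E1 u (t x) := by
    intro x u
    have h1 := hproj x u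
    rw [map_sub, AddMonoidHom.sub_apply, sub_eq_zero] at h1
    rw [symB1 (l1 u) x, h1, symB1, hE1]
  have symE1 : ∀ u u', E1 u u' = E1 u' u := by
    intro u u'
    rw [← hE1, ← hE1, symB1]
  have hs1 : ∀ x, B1 x x = E1 (t x) (t x) + B1 (x - l1 (t x)) (x - l1 (t x)) := by
    intro x
    have h1 := hproj x (t x)
    have h2 := hp x (t x)
    have h3 := hE1 (t x) (t x)
    simp only [map_sub, AddMonoidHom.sub_apply] at h1 ⊢
    have h4 := symB1 x (l1 (t x))
    linarith
  have hperp : ∀ x, B1 (x - l1 (t x)) (x - l1 (t x)) ≤ 0 ∧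
      (B1 (x - l1 (t x)) (x - l1 (t x)) = 0 → x - l1 (t x) = 0) := fun x => hH1 _ (hproj x)
  -- the form
  let T : D1 →+ D1 :=
    { toFun := fun x => l1 (t x) + l1 (t x) - x
      map_zero' := by simp
      map_add' := fun x y => by
        simp only [map_add]
        abel }
  have hT : ∀ x, T x = l1 (t x) + l1 (t x) - x := fun x => rfl
  have hTg : ∀ x y, B1 (T x) y = 2 * E1 (t x) (t y) - B1 x y := by
    intro x y
    rw [hT, map_sub, map_add, AddMonoidHom.sub_apply, AddMonoidHom.add_apply, hp]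
    ring
  let q : U2 →+ U2 →+ ℚ :=
    { toFun := fun c => (B1 (T (g1 c))).comp g1
      map_zero' := by
        ext c
        simp
      map_add' := fun a a' => by
        ext c
        simp }
  have hq : ∀ c c', q c c' = 2 * E1 (t (g1 c)) (t (g1 c')) - B1 (g1 c) (g1 c') := fun c c' =>
    hTg (g1 c) (g1 c')
  have hqs : ∀ c c', q c c' = q c' c := by
    intro c c'
    rw [hq, hq, symE1, symB1]
  have hq0 : ∀ c, q c c = 0 → g1 c = 0 := by
    intro c hc
    rw [hq, hs1 (g1 c)] at hc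
    have h1 := posE1 (t (g1 c))
    have h2 := (hperp (g1 c)).1
    have h3 : E1 (t (g1 c)) (t (g1 c)) = 0 := by linarith
    have h4 : B1 (g1 c - l1 (t (g1 c))) (g1 c - l1 (t (g1 c))) = 0 := by linarith
    have h5 := defE1 _ h3
    have h6 := (hperp (g1 c)).2 h4
    rw [h5, map_zero, sub_zero] at h6
    exact h6
  obtain ⟨c, hc⟩ := LemkL_repr q hqs ((B1 (T (r0 b))).comp g1) (by
    intro c hc
    have h1 := hq0 c (hc c)
    rw [AddMonoidHom.comp_apply, h1, map_zero])
  set x' : D1 := r0 b - g1 c with hx'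
  have ha : ∀ c'', B1 (T x') (g1 c'') = 0 := by
    intro c''
    rw [hx', map_sub, map_sub, AddMonoidHom.sub_apply, sub_eq_zero]
    exact (hc c'').symm
  set u : U1 := t x' with hu
  -- (b)
  have hr1 : r1 x' = g2 (s2 c) := by
    rw [hx', map_sub, hr, hrg1, zero_sub, neg_neg]
  have hr0 : ∀ y, B1 x' (r0 y) = 0 := by
    intro y
    rw [hx', map_sub, AddMonoidHom.sub_apply, hb, hB1, hr, map_zero, AddMonoidHom.zero_apply,
      sub_zero]
  have hb2 : ∀ c'', 2 * E2 (s1 u) c'' - E3 (s2 c) (s2 c'') = 0 := by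
    intro c''
    have h1 := ha c''
    rw [symB1, hB1, hT, map_sub, map_add, hrl1, hr1, map_sub, map_add, AddMonoidHom.sub_apply,
      AddMonoidHom.add_apply, hPl, hPg] at h1
    linarith
  have hs1u : s1 u = 0 := by
    apply defE2
    have h1 := hb2 (s1 u)
    rw [hs, map_zero] at h1
    linarith
  have hs2c : s2 c = 0 := by
    apply defE3
    have h1 := hb2 c
    rw [hs1u, map_zero, AddMonoidHom.zero_apply] at h1
    linarith
  have hr1' : r1 x' = 0 := by rw [hr1, hs2c, map_zero]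
  -- (c)
  have hxl : ∀ v, B1 x' (l1 v) = B1 (l1 u) (l1 v) := by
    intro v
    have h1 := hproj x' v
    rw [map_sub, AddMonoidHom.sub_apply, sub_eq_zero] at h1
    exact h1
  have hy : g0 u = 0 := by
    apply hH0
    · intro v
      rw [hB0, hrl, ← hxl, ← hrl]
      exact hr0 _
    · rw [hB0, hrg, hs1u, map_zero, neg_zero, map_zero]
  -- (d)
  have hu0 : u = 0 := by
    apply defE1
    rw [← hE1, ← hxl, hx', map_sub, AddMonoidHom.sub_apply, hB1, hrl1, hs1u, map_zero, map_zero,
      AddMonoidHom.zero_apply, sub_zero, symB1, ← hB0, hy, map_zero, AddMonoidHom.zero_apply]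
  -- (e)
  have hx0 : x' = 0 := by
    apply (hH1 x' _).2
    · have h1 : B1 x' (g1 c) = 0 := by
        rw [symB1, hB1, hr1', map_zero, AddMonoidHom.zero_apply]
      have h2 : B1 x' x' = B1 x' (r0 b) - B1 x' (g1 c) := by
        rw [← map_sub]
      rw [h2, hr0, h1, sub_zero]
    · intro v
      rw [hxl, hu0, map_zero, map_zero, AddMonoidHom.zero_apply]
  exact ⟨c, hs2c, sub_eq_zero.mp hx0⟩

end Pool.Agent.Helper7K9.OL
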