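import Pool.Agent.Helper7K9.OL.Basic
import Pool.Agent.Helper7K9.OL.Lemk

/-!
# The key lemma for the strata
-/

open CategoryTheory Finset

universe u v

namespace Pool.Agent.Helper7K9.OL

open Pool.Agent.H914 Pool.Agent.H914.VarClass Pool.Agent.H914.VarClass.Obj
  Pool.Agent.H914.WeilCohomology

section A

variable {k : Type u} [Field k] {𝒱 : VarClass k} {ops : CycleOps 𝒱}
  (W : WeilCohomology.{u, v} ops) {d : ℕ} (D : Strata 𝒱 d) (L : ∀ p (s : D.S p), (D.Y p s).Cycles)

variable {W D} in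
lemma IsPolarized.map' {L : ∀ p (s : D.S p), (D.Y p s).Cycles} (hL : IsPolarized W D L) (p i s) :
    W.map (D.inc p i s) (W.cl _ (L p (D.face p i s))) = W.cl _ (L (p + 1) s) := hL.map p i s

variable {W D} in
lemma IsPolarized.pos' {L : ∀ p (s : D.S p), (D.Y p s).Cycles} (hL : IsPolarized W D L) (p s) :
    ∃ r : ℚ, 0 < r ∧ W.tr _ (W.cl _ (L p s) ^ (D.Y p s).dim) = (r : W.K) := hL.pos p s

variable {W D} in
lemma IsPolarized.index' {L : ∀ p (s : D.S p), (D.Y p s).Cycles} (hL : IsPolarized W D L) (p s m)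
    (h : (D.Y p s).dim = m + 2) (z) (hz : (D.Y p s).IsCyc 1 z)
    (h0 : W.tr _ (W.cl _ (L p s) ^ (m + 1) * W.cl _ z) = 0) (r : ℚ)
    (hr : W.tr _ (W.cl _ (L p s) ^ m * (W.cl _ z * W.cl _ z)) = (r : W.K)) :
    r ≤ 0 ∧ (r = 0 → W.cl _ z = 0) := hL.index p s m h z hz h0 r hr

variable {W D} in
lemma IsSemistable.res_res' (hS : IsSemistable W D) (p : ℕ) (x : Coh W D p) :
    res W D (p + 1) (res W D p x) = 0 := by
  funext s
  rw [← resF_eq, ← resF_eq]
  exact hS.res_res p x s

variable {W D} in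
lemma IsSemistable.res_gys' (hS : IsSemistable W D) (p : ℕ) (x : Coh W D (p + 1)) :
    res W D p (gys W D p x) + gys W D (p + 1) (res W D (p + 1) x) = 0 := by
  funext s
  rw [← resF_eq, ← resF_eq, ← gysF_eq, ← gysF_eq]
  exact hS.res_gys p x s

/-- The sum of the degrees of `L ^ e x y`. -/
noncomputable def degF (p e : ℕ) (x y : Coh W D p) : W.K :=
  ∑ s, W.tr _ (W.cl _ (L p s) ^ e * (x s * y s))

lemma degF_add_left (p e : ℕ) (x x' y : Coh W D p) :
    degF W D L p e (x + x') y = degF W D L p e x y + degF W D L p e x' y := by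
  simp [degF, mul_add, add_mul, sum_add_distrib]

lemma degF_add_right (p e : ℕ) (x y y' : Coh W D p) :
    degF W D L p e x (y + y') = degF W D L p e x y + degF W D L p e x y' := by
  simp [degF, mul_add, sum_add_distrib]

variable {L}

lemma pow_mem (hL : IsPolarized W D L) (p e : ℕ) (s : D.S p) :
    W.cl _ (L p s) ^ e ∈ W.gr _ (2 * e) := by
  obtain ⟨w, hw, h⟩ := pow_mul_alg W (hL.cyc p s) (SmVar.fundCycle_mem _) e
  rw [W.cl_fund, mul_one] at h
  rw [← h]
  exact W.cl_mem (by simpa using hw)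

lemma degF_eq_pair (hL : IsPolarized W D L) (p e : ℕ) (x y : Coh W D p) :
    degF W D L p e x y = pair W D p x (fun s => W.cl _ (L p s) ^ e * y s) := by
  rw [degF, pair_def]
  apply sum_congr rfl
  intro s _
  rw [← mul_assoc, W.even_comm (pow_mem W D hL p e s), mul_assoc]

lemma degF_adj (hL : IsPolarized W D L) (p e : ℕ) (x : Coh W D (p + 1)) (y : Coh W D p) :
    degF W D L p e (gys W D p x) y = degF W D L (p + 1) e x (res W D p y) := by
  rw [degF_eq_pair W D hL, degF_eq_pair W D hL, adj]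
  congr 1
  funext s
  rw [res_apply, res_apply, mul_sum]
  apply sum_congr rfl
  intro i _
  rw [map_mul, map_pow, hL.map', mul_smul_comm]

lemma degF_comm (hL : IsPolarized W D L) (p e : ℕ) {q : ℕ} {x : Coh W D p}
    (hx : x ∈ Alg W D p q) (y : Coh W D p) : degF W D L p e x y = degF W D L p e y x := by
  rw [degF, degF]
  apply sum_congr rfl
  intro s _
  obtain ⟨z, hz, h⟩ := hx s
  rw [← h, W.even_comm (W.cl_mem hz)]

lemma degF_rat (hL : IsPolarized W D L) {p e q q' : ℕ} (h : e + q + q' + p = d) {x y : Coh W D p}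
    (hx : x ∈ Alg W D p q) (hy : y ∈ Alg W D p q') :
    ∃ r : ℚ, degF W D L p e x y = (r : W.K) := by
  have h1 : ∀ s, ∃ r : ℚ, W.tr _ (W.cl _ (L p s) ^ e * (x s * y s)) = (r : W.K) := by
    intro s
    obtain ⟨z, hz, h2⟩ := hx s
    obtain ⟨w, hw, h3⟩ := hy s
    rw [← h2, ← h3]
    apply rational W (hL.cyc p s) hz hw
    have := D.dim_add p s
    omega
  choose r hr using h1
  refine ⟨∑ s, r s, ?_⟩
  rw [degF, sum_congr rfl fun s _ => hr s]
  simp

/-- The constant class with the values `u`. -/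
noncomputable def cst (p : ℕ) : (D.S p → ℚ) →+ Coh W D p where
  toFun u := fun s => ((u s : ℚ) : W.K) • 1
  map_zero' := by ext; simp
  map_add' := by intro u u'; ext; simp [add_smul]

/-- The multiples of the divisor class. -/
noncomputable def lf (L : ∀ p (s : D.S p), (D.Y p s).Cycles) (p : ℕ) :
    (D.S p → ℚ) →+ Coh W D p where
  toFun u := fun s => ((u s : ℚ) : W.K) • W.cl _ (L p s)
  map_zero' := by ext; simp
  map_add' := by intro u u'; ext; simp [add_smul]

/-- The alternating sum of the restrictions of functions. -/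
def sc (p : ℕ) : (D.S p → ℚ) →+ (D.S (p + 1) → ℚ) where
  toFun u := fun s => ∑ i : Fin (p + 2), (-1) ^ (i : ℕ) * u (D.face p i s)
  map_zero' := by ext; simp
  map_add' := by intro u u'; ext; simp [mul_add, sum_add_distrib]

lemma res_cst (p : ℕ) (u : D.S p → ℚ) : res W D p (cst W D p u) = cst W D (p + 1) (sc D p u) := by
  funext s
  rw [res_apply]
  simp only [cst, sc, AddMonoidHom.coe_mk, ZeroHom.coe_mk]
  push_cast
  rw [sum_smul]
  apply sum_congr rfl
  intro i _
  rw [map_smul, map_one, smul_smul]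

lemma res_lf (hL : IsPolarized W D L) (p : ℕ) (u : D.S p → ℚ) :
    res W D p (lf W D L p u) = lf W D L (p + 1) (sc D p u) := by
  funext s
  rw [res_apply]
  simp only [lf, sc, AddMonoidHom.coe_mk, ZeroHom.coe_mk]
  push_cast
  rw [sum_smul]
  apply sum_congr rfl
  intro i _
  rw [map_smul, hL.map', smul_smul]

lemma cst_mem (p : ℕ) (u : D.S p → ℚ) : cst W D p u ∈ Alg W D p 0 := fun s =>
  ⟨u s • SmVar.fundCycle _, SmVar.IsCyc.smul _ (SmVar.fundCycle_mem _),
    by rw [W.cl_smul, W.cl_fund]; rfl⟩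

lemma lf_mem (hL : IsPolarized W D L) (p : ℕ) (u : D.S p → ℚ) : lf W D L p u ∈ Alg W D p 1 :=
  fun s => ⟨u s • L p s, SmVar.IsCyc.smul _ (hL.cyc p s), by rw [W.cl_smul]; rfl⟩

lemma cst_injective [∀ p s, Nontrivial (W.H (D.Y p s))] (p : ℕ) :
    Function.Injective (cst W D p) := by
  rw [injective_iff_map_eq_zero]
  intro u hu
  funext s
  have h := congrFun hu s
  simp only [cst, AddMonoidHom.coe_mk, ZeroHom.coe_mk, Pi.zero_apply] at h
  rcases smul_eq_zero.1 h with h | h
  · exact_mod_cast h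
  · exact absurd h one_ne_zero

lemma degF_lf_left (p e : ℕ) (u : D.S p → ℚ) (y : Coh W D p) :
    degF W D L p e (lf W D L p u) y = degF W D L p (e + 1) (cst W D p u) y := by
  rw [degF, degF]
  apply sum_congr rfl
  intro s _
  simp only [lf, cst, AddMonoidHom.coe_mk, ZeroHom.coe_mk]
  rw [smul_mul_assoc, smul_mul_assoc, one_mul, mul_smul_comm, mul_smul_comm, pow_succ, mul_assoc]

lemma degF_cst_right (p e : ℕ) (u : D.S p → ℚ) (y : Coh W D p) :
    degF W D L p e y (cst W D p u) =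
      ∑ s, ((u s : ℚ) : W.K) * W.tr _ (W.cl _ (L p s) ^ e * y s) := by
  rw [degF]
  apply sum_congr rfl
  intro s _
  simp only [cst, AddMonoidHom.coe_mk, ZeroHom.coe_mk]
  rw [mul_smul_comm, mul_one, mul_smul_comm, map_smul, smul_eq_mul]

end A

end Pool.Agent.Helper7K9.OL
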